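import Pool.Agent.L0h58.HZ.All

/-!
# Derandomization of one-pass logarithmic space costs more than slightly superlinear time

There is an explicit Boolean function `hardFunction N` of `N` bits which is computed, with one-sided
error as in `RL`, by a randomized program which tosses at most `log N` coins and then reads the input
only once, from left to right, with at most `N ^ 15` memory states (that is, in logarithmic space),
although for all `k ≥ 1` and `N ≥ K = 2 ^ (A k ^ 3)` every deterministic branching program (cycles are
allowed) which computes it in time `k N` has more than `2 ^ (N / K)` nodes, and so has every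
nondeterministic program which computes its complement in time `k N` with at most `N / K` guesses (in
contrast to `NL = coNL`, which holds for polynomial time). So the derandomization of
`RL` costs more than a constant factor in time, even if linear space is allowed, and more than a
factor `c (log N) ^ (1 / 3)`, even if space `N ^ (1 - ε)` is allowed, and even for machines that use
their randomness only at the beginning and read the input only once.

The function tests whether a quadratic identity between polynomials over `𝔽₂` fails. The six linear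
forms in the bits `x(i)` have coefficients which are polynomials `W_c(i)`. If `P = X ^ K`,
`s_c(i) = t_c(i - K)` then `W_c(i)` is the window `∑ t_c(i - a) X ^ a`, `a < K`, of the sequence `t_c`, so
that the matrix of the linear forms is a Hankel matrix, and for a suitable choice of these bits
every large set of its rows has almost full rank. For the lower bound we use the method of Ajtai and
of Beame, Saks, Sun and Vee: a set of inputs on which the program passes through the same states at
the ends of the segments contains large rectangles; but rectangles in a fibre of the quadratic map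
are small, since `𝔽₂[X]^6` has only isotropic spaces of dimension three, whereas some fibre has
density at least `2 ^ (-2 K)`.
-/

set_option autoImplicit false

namespace Pool.Agent.Results.MP_92893d_lc.LinearTimeDerandomization

/-! ### The function -/

section function

open Polynomial

/-- The bit `j` of the input `y`, as an element `0` or `1` of `𝔽₂[X]`. -/
noncomputable def bit {N : ℕ} (y : Fin N → Bool) (j : ℕ) : (ZMod 2)[X] :=
  if h : j < N then (if y ⟨j, h⟩ = true then 1 else 0) else 0

/-- The polynomial `P = ∑ yᵢ Xⁱ`, `i < n`, which is given by the first `n` bits. -/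
noncomputable def shiftPoly {N : ℕ} (y : Fin N → Bool) (n : ℕ) : (ZMod 2)[X] :=
  ∑ i ∈ Finset.range n, bit y i * X ^ i

/-- The polynomials `W_c(0) = 0`, `W_c(i + 1) = X W_c(i) + t_c(i) + s_c(i) P`, where `t_c(i)` and
`s_c(i)` are the bits `n + 14 i + c` and `n + 14 i + 6 + c`. -/
noncomputable def window {N : ℕ} (y : Fin N → Bool) (n c : ℕ) : ℕ → (ZMod 2)[X]
  | 0 => 0
  | i + 1 => X * window y n c i + bit y (n + 14 * i + c) +
      bit y (n + 14 * i + 6 + c) * shiftPoly y n

/-- The polynomial `U_c = ∑ x(i) W_c(i + 1)`, `i < n`, where `x(i)` is the bit `n + 14 i + 12`. -/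
noncomputable def windowSum {N : ℕ} (y : Fin N → Bool) (n c : ℕ) : (ZMod 2)[X] :=
  ∑ i ∈ Finset.range n, bit y (n + 14 * i + 12) * window y n c (i + 1)

/-- The polynomial `∑ w(i) Xⁱ`, `i < n`, where `w(i)` is the bit `n + 14 i + 13`. -/
noncomputable def target {N : ℕ} (y : Fin N → Bool) (n : ℕ) : (ZMod 2)[X] :=
  ∑ i ∈ Finset.range n, bit y (n + 14 * i + 13) * X ^ i

open Classical in
/-- The explicit function: does the identity `U₀ U₃ + U₁ U₄ + U₂ U₅ = ∑ w(i) Xⁱ` fail? -/
noncomputable def hardFunction (N : ℕ) (y : Fin N → Bool) : Bool :=
  decide (windowSum y (N / 16) 0 * windowSum y (N / 16) 3 +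
    windowSum y (N / 16) 1 * windowSum y (N / 16) 4 +
    windowSum y (N / 16) 2 * windowSum y (N / 16) 5 ≠ target y (N / 16))

theorem bit_eq {N : ℕ} (y : Fin N → Bool) (j : ℕ) :
    (Pool.Agent.L0h58.HX.bv (Pool.Agent.L0h58.HX.bit y j) : (ZMod 2)[X]) = bit y j := by
  unfold bit Pool.Agent.L0h58.HX.bit Pool.Agent.L0h58.HX.bv
  by_cases h : j < N
  · rw [dif_pos h, dif_pos h]
  · rw [dif_neg h, dif_neg h]
    rfl

theorem window_eq {N : ℕ} (y : Fin N → Bool) (n c i : ℕ) :
    Pool.Agent.L0h58.HX.win (X : (ZMod 2)[X]) n (Pool.Agent.L0h58.HX.bit y) c i =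
      window y n c i := by
  have hP : Pool.Agent.L0h58.HX.pe (X : (ZMod 2)[X]) n (Pool.Agent.L0h58.HX.bit y) =
      shiftPoly y n := by
    unfold Pool.Agent.L0h58.HX.pe shiftPoly
    exact Finset.sum_congr rfl fun i _ => by rw [bit_eq]
  induction i with
  | zero => rfl
  | succ i ih =>
    unfold window Pool.Agent.L0h58.HX.win
    rw [ih, hP, bit_eq, bit_eq]

theorem hard_eq (N : ℕ) : Pool.Agent.L0h58.HX.hard N = hardFunction N := by
  classical
  funext y
  have hU : ∀ c, Pool.Agent.L0h58.HX.acc (X : (ZMod 2)[X]) (N / 16)
      (Pool.Agent.L0h58.HX.bit y) c (N / 16) = windowSum y (N / 16) c := by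
    intro c
    rw [Pool.Agent.L0h58.HX.acc_sum]
    unfold windowSum
    exact Finset.sum_congr rfl fun i _ => by rw [bit_eq, window_eq]
  have hT : Pool.Agent.L0h58.HX.tgt (X : (ZMod 2)[X]) (N / 16) (Pool.Agent.L0h58.HX.bit y) =
      target y (N / 16) := by
    unfold Pool.Agent.L0h58.HX.tgt target
    exact Finset.sum_congr rfl fun i _ => by rw [bit_eq]
  unfold Pool.Agent.L0h58.HX.hard hardFunction Pool.Agent.L0h58.HX.vl
  rw [hU, hU, hU, hU, hU, hU, hT]
  apply decide_eq_decide.2
  exact sub_ne_zero

end function

/-- A deterministic branching program for inputs of `n` bits with the set `V` of nodes; cycles are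
allowed. A node `v` with `out v = none` reads the variable `var v`, a node `v` with `out v = some b`
is a sink with the answer `b`. -/
structure BranchingProgram (n : ℕ) (V : Type) where
  start : V
  var : V → Fin n
  next : V → Bool → V
  out : V → Option Bool

/-- One step of the computation. -/
def BranchingProgram.step {n : ℕ} {V : Type} (P : BranchingProgram n V) (x : Fin n → Bool)
    (v : V) : V :=
  if (P.out v).isSome then v else P.next v (x (P.var v))

/-- The program computes `f` in time `T`: on every input `x` it reaches within `T` steps a sink with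
the answer `f x`. -/
def BranchingProgram.Computes {n : ℕ} {V : Type} (P : BranchingProgram n V) (T : ℕ)
    (f : (Fin n → Bool) → Bool) : Prop :=
  ∀ x, P.out ((P.step x)^[T] P.start) = some (f x)

/-- A nondeterministic branching program for inputs of `n` bits with the set `V` of nodes; cycles are
allowed. A node `v` with `out v = none` reads the variable `var v`; if its value is `b`, the
possible next nodes are `next v b false` and `next v b true`. A node `v` with `out v = some b` is a
sink with the answer `b`. -/
structure NondetProgram (n : ℕ) (V : Type) where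
  start : V
  var : V → Fin n
  next : V → Bool → Bool → V
  out : V → Option Bool

/-- One step of the computation with the guessed bit `c`. -/
def NondetProgram.step {n : ℕ} {V : Type} (P : NondetProgram n V) (x : Fin n → Bool) (v : V)
    (c : Bool) : V :=
  if (P.out v).isSome then v else P.next v (x (P.var v)) c

/-- The node after `t` steps of the computation with the guessed bits `γ`. -/
def NondetProgram.run {n : ℕ} {V : Type} (P : NondetProgram n V) (x : Fin n → Bool)
    (γ : ℕ → Bool) : ℕ → V
  | 0 => P.start
  | t + 1 => P.step x (P.run x γ t) (γ t)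

/-- The step at the time `t` is nondeterministic: there is a genuine choice between two nodes. -/
def NondetProgram.Chooses {n : ℕ} {V : Type} (P : NondetProgram n V) (x : Fin n → Bool)
    (γ : ℕ → Bool) (t : ℕ) : Prop :=
  P.step x (P.run x γ t) false ≠ P.step x (P.run x γ t) true

/-- The program computes `f` in time `T` with `g` guesses: `f x = true` if and only if the input `x` has
an accepting computation of length at most `T` with at most `g` nondeterministic steps. -/
def NondetProgram.Computes {n : ℕ} {V : Type} (P : NondetProgram n V) (T g : ℕ)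
    (f : (Fin n → Bool) → Bool) : Prop :=
  ∀ x, f x = true ↔ ∃ γ : ℕ → Bool, P.out (P.run x γ T) = some true ∧
    {t : ℕ | t < T ∧ P.Chooses x γ t}.ncard ≤ g

/-- A one-pass randomized program for inputs of `n` bits with the set `V` of memory states: it first
tosses `ρ` coins and then reads the input once, from left to right. -/
structure OnePassProgram (n ρ : ℕ) (V : Type) where
  start : (Fin ρ → Bool) → V
  next : Fin n → V → Bool → V
  acc : V → Prop

/-- The program accepts the input `x` if the coins show `ω`. -/
def OnePassProgram.Accepts {n ρ : ℕ} {V : Type} (P : OnePassProgram n ρ V) (ω : Fin ρ → Bool)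
    (x : Fin n → Bool) : Prop :=
  P.acc ((List.finRange n).foldl (fun v i => P.next i v (x i)) (P.start ω))

/-- The program decides `f` with one-sided error: inputs with `f x = true` are accepted with
probability at least `1 / 2`, inputs with `f x = false` are never accepted. -/
def OnePassProgram.Decides {n ρ : ℕ} {V : Type} (P : OnePassProgram n ρ V)
    (f : (Fin n → Bool) → Bool) : Prop :=
  ∀ x, (f x = true →
      (1 / 2 : ℝ) ≤ (Nat.card {ω : Fin ρ → Bool // P.Accepts ω x} : ℝ) / (2 : ℝ) ^ ρ) ∧
    (f x = false → ∀ ω, ¬ P.Accepts ω x)

/-- **Derandomizing one-pass randomized logarithmic space is impossible in time `k n` and in space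
`n / 2 ^ (A k ^ 3)`.** -/
theorem result :
    (∀ n, 1 ≤ n → ∃ (ρ : ℕ) (V : Type) (_ : Finite V) (P : OnePassProgram n ρ V),
      2 ^ ρ ≤ n ∧ Nat.card V ≤ n ^ 15 ∧ P.Decides (hardFunction n)) ∧
    ∃ A : ℕ, ∀ k n : ℕ, 1 ≤ k → 2 ^ (A * k ^ 3) ≤ n →
      -- deterministic programs
      (∀ (V : Type) (_ : Finite V) (P : BranchingProgram n V),
        P.Computes (k * n) (hardFunction n) →
          (2 : ℝ) ^ ((n : ℝ) / 2 ^ (A * k ^ 3)) < Nat.card V) ∧
      -- nondeterministic programs for the complement
      (∀ (V : Type) (_ : Finite V) (P : NondetProgram n V) (T g : ℕ), T ≤ k * n →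
        (g : ℝ) ≤ (n : ℝ) / 2 ^ (A * k ^ 3) → P.Computes T g (fun x => !hardFunction n x) →
          (2 : ℝ) ^ ((n : ℝ) / 2 ^ (A * k ^ 3)) < Nat.card V) := by
  classical
  obtain ⟨A, hA⟩ := Pool.Agent.L0h58.HZ.lowB
  -- the two notions of acceptance
  have hacc : ∀ {n : ℕ} {V : Type} (P : NondetProgram n V) (T g : ℕ) (x : Fin n → Bool),
      (∃ γ : ℕ → Bool, P.out (P.run x γ T) = some true ∧
        {t : ℕ | t < T ∧ P.Chooses x γ t}.ncard ≤ g) ↔
      (Pool.Agent.L0h58.HN.NBP.mk P.start P.var P.next P.out).Accepts T g x := by
    intro n V P T g x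
    have hrun : ∀ (γ : ℕ → Bool) (t : ℕ),
        (Pool.Agent.L0h58.HN.NBP.mk P.start P.var P.next P.out).run x γ t = P.run x γ t := by
      intro γ t
      induction t with
      | zero => rfl
      | succ t ih =>
        show (Pool.Agent.L0h58.HN.NBP.mk P.start P.var P.next P.out).step x _ _ = P.step x _ _
        rw [ih]
        rfl
    have hset : ∀ γ : ℕ → Bool, {t : ℕ | t < T ∧ P.Chooses x γ t} =
        (((Finset.range T).filter fun t =>
          (Pool.Agent.L0h58.HN.NBP.mk P.start P.var P.next P.out).step x
            ((Pool.Agent.L0h58.HN.NBP.mk P.start P.var P.next P.out).run x γ t) false ≠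
          (Pool.Agent.L0h58.HN.NBP.mk P.start P.var P.next P.out).step x
            ((Pool.Agent.L0h58.HN.NBP.mk P.start P.var P.next P.out).run x γ t) true :
              Finset ℕ) : Set ℕ) := by
      intro γ
      ext t
      rw [Finset.coe_filter, Set.mem_ofPred_eq, Set.mem_ofPred_eq, Finset.mem_range, hrun]
      exact Iff.rfl
    unfold Pool.Agent.L0h58.HN.NBP.Accepts
    constructor
    · rintro ⟨γ, h1, h2⟩
      refine ⟨γ, by rw [hrun]; exact h1, ?_⟩
      rw [hset, Set.ncard_coe_finset] at h2
      exact h2
    · rintro ⟨γ, h1, h2⟩
      refine ⟨γ, by rw [← hrun]; exact h1, ?_⟩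
      rw [hset, Set.ncard_coe_finset]
      exact h2
  refine ⟨fun n hn => ?_, A, fun k n hk hn => ⟨fun V hV P hP => ?_,
    fun V hV P T g hT hg hP => ?_⟩⟩
  · obtain ⟨ρ, hρ, V, hV, start, next, acc, hcard, hdec⟩ := Pool.Agent.L0h58.HX.upper hn
    rw [hard_eq] at hdec
    refine ⟨ρ, V, hV, ⟨start, next, acc⟩, hρ, hcard, fun x => ⟨fun hx => ?_, fun hx ω => ?_⟩⟩
    · have h1 := (hdec x).1 hx
      have h2 : ((2 ^ ρ : ℕ) : ℝ) ≤ ((2 * Nat.card {ω : Fin ρ → Bool //
          (OnePassProgram.mk start next acc).Accepts ω x} : ℕ) : ℝ) := by
        exact_mod_cast h1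
      rw [le_div_iff₀ (by positivity)]
      push_cast at h2
      linarith
    · exact (hdec x).2 hx ω
  · have hAk := (hA k n hk hn).1
    rw [hard_eq] at hAk
    refine hAk V Unit hV inferInstance inferInstance (fun _ => P.start) (fun _ => P.var)
      (fun _ => P.next) (fun _ => P.out) (fun x hx _ t ht => ?_) fun x hx => ?_
    · have h1 := hP x
      rcases le_total t (k * n) with h | h
      · have h2 := Pool.Agent.L0h32.LT2.stp_late h ht
        have h3 : some (hardFunction n x) = some false := h1.symm.trans h2
        rw [hx] at h3
        exact absurd h3 (by simp)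
      · have h2 := Pool.Agent.L0h32.LT2.stp_late h h1
        have h3 : some (hardFunction n x) = some false := h2.symm.trans ht
        rw [hx] at h3
        exact absurd h3 (by simp)
    · have h1 := hP x
      rw [hx] at h1
      have h2 : (Finset.univ.filter fun _ω : Unit =>
          P.out ((Pool.Agent.L0h32.LT2.stp P.var P.next P.out x)^[k * n] P.start) =
            some false) = Finset.univ := Finset.filter_true_of_mem fun _ _ => h1
      rw [h2, Finset.card_univ]
      refine mul_le_of_le_one_left (Nat.cast_nonneg _) ?_
      apply Real.rpow_le_one_of_one_le_of_nonpos (by norm_num)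
      rw [neg_nonpos]
      positivity
  · by_contra hcon
    apply (hA k n hk hn).2 T (Nat.card V) g hT (not_lt.1 hcon) hg
    rw [hard_eq]
    exact ⟨V, hV, ⟨P.start, P.var, P.next, P.out⟩, le_rfl, fun x => (hP x).trans (hacc P T g x)⟩

end Pool.Agent.Results.MP_92893d_lc.LinearTimeDerandomization
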