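import Pool.Agent.L0h58.KL.Amp

/-!
# Advice of logarithmic length does not help against randomness in logarithmic space

Let `prBPL` and `prL` be the promise versions of `BPL` and `L`. We show that `prBPL` is contained in
`prL / O (log n)`, deterministic logarithmic space with advice of logarithmic length, if and only if
`prBPL = prL`. In particular, `RL = L` if `prBPL` is contained in `prL / O (log n)`.

Proof: for a program `P` and an input `x`, the acceptance probabilities of all (polynomially many)
configurations at all times can be compared with thresholds by sampling; this is a problem in
`prBPL`, for instances of one length. With the (polynomially many) possible advices a deterministic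
program gives (polynomially many) candidates for tables of approximate acceptance probabilities. A
candidate is accepted if it is locally consistent, i.e. at every configuration its value is nearly the
average of the two values at the next configurations, and it is right at the end. The candidate
of the right advice is locally consistent, and every locally consistent candidate is nearly right.
-/

set_option autoImplicit false

namespace Pool.Agent.Results.MP_92893d_lc.LogarithmicAdvice

open Pool.Agent.L0h58.RL Pool.Agent.L0h58.CA Pool.Agent.L0h58.KL

theorem result :
    ((∀ Y N, PromiseBPL Y N → PromiseLAdv Y N) ↔ ∀ Y N, PromiseBPL Y N → PromiseL Y N) ∧
    ((∀ Y N, PromiseBPL Y N → PromiseLAdv Y N) → Same empty) :=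
  ⟨advice_iff, advice_same⟩

end Pool.Agent.Results.MP_92893d_lc.LogarithmicAdvice
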