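import Pool.Agent.L0h58.RL.Ae
import Pool.Agent.L0h58.RL.All

/-!
# Randomized versus deterministic logarithmic space relative to oracles

The oracles are sets of natural numbers, and the queries of a machine are numbers with `O (log n)`
bits, `n` the length of the input. (See `Pool/Agent/L0h58/RL/Defs.lean`: a program has finitely many
registers with `O (log n)` bits; in every step the registers are replaced by the values of
expressions in the old contents, the length and the bits of the input, one random bit, and the
oracle; the number of steps is polynomial.) For the empty oracle we have the usual classes `RL` and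
`L`; `Same A` means that `RL = L` relative to `A`. We show how much of an oracle can be needed:

1. `RL = L` relative to almost every oracle, for every distribution for which the numbers belong to
   the oracle independently of each other with probabilities between `κ (j + 1) ^ (-c)` and
   `1 - κ (j + 1) ^ (-c)`, where `c < 1`. For instance, this is true for a random set containing the number
   `j` with probability `j ^ (-c)`.
2. This is sharp: if the sum of the probabilities is finite (for instance for `j ^ (-c)`, `c > 1`), then
   almost surely `RL = L` relative to the oracle if and only if `RL = L`.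
3. `RL = L` relative to a generic oracle (for the oracles in a comeagre set) if and only if `RL = L`;
   if `RL ≠ L`, then `RL ≠ L` relative to a generic oracle.
4. `RL = L` relative to all oracles if and only if every promise problem which can be solved in `RL`
   can be solved in `L`.
-/

set_option autoImplicit false

namespace Pool.Agent.Results.MP_92893d_lc.LogarithmicQueries

open MeasureTheory Pool.Agent.L0h58.RL

theorem result :
    -- (1) random oracles
    (∀ (ν : ℕ → Measure Bool) (c κ : ℝ), (∀ j, IsProbabilityMeasure (ν j)) → c < 1 → 0 < κ →
      (∀ (j : ℕ) (b : Bool), κ * ((j : ℝ) + 1) ^ (-c) ≤ (ν j).real {b}) →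
      ∀ᵐ A ∂(Measure.infinitePi ν), Same A) ∧
    -- (2) very sparse random oracles
    (∀ ν : ℕ → Measure Bool, (∀ j, IsProbabilityMeasure (ν j)) →
      (Summable fun j => (ν j).real {true}) →
      ∀ᵐ A ∂(Measure.infinitePi ν), (Same A ↔ Same empty)) ∧
    -- (3) generic oracles
    ((Same empty ↔ {A | Same A} ∈ residual (ℕ → Bool)) ∧
      (¬ Same empty → {A | ¬ Same A} ∈ residual (ℕ → Bool))) ∧
    -- (4) all oracles
    ((∀ A, Same A) ↔ ∀ Y N, PromiseRL Y N → PromiseL Y N) :=
  ⟨fun ν _ _ _ hc hκ h => ae_same ν hc hκ h, fun ν _ h => ae_finite ν h,
    ⟨same_iff_residual, residual_not_same⟩, promise_iff.symm⟩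

end Pool.Agent.Results.MP_92893d_lc.LogarithmicQueries
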