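import Pool.Agent.L0h58.KL.Amp
import Pool.Agent.L0h58.KL.Sel

/-!
# Selective sets cannot separate randomized logarithmic space problems unless `prBPL = prL`

A set `S` is selective in logarithmic space if a deterministic program of logarithmic space chooses
one of two given strings (of the same length), such that the chosen one is in `S` if one of the
strings is in `S`. Such sets can be undecidable, and arbitrarily complicated. We show that every
problem in `prBPL` is separated by a selective set (or, equivalently, that problems complete for
`prBPL` can be reduced to a selective set) if and only if `prBPL = prL`; in particular `RL = L` then.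

Proof: the instances which are needed for a table of approximate acceptance probabilities of all
configurations form a tournament, and those which are in `S` are the ones from which a suitable
element of `S` can be reached in at most two steps. This gives polynomially many candidates for the
table, and one of them is right; a right one is recognized by its local consistency.
-/

set_option autoImplicit false

namespace Pool.Agent.Results.MP_92893d_lc.SelectiveSets

open Pool.Agent.L0h58.RL Pool.Agent.L0h58.CA Pool.Agent.L0h58.KL

theorem result :
    ((∀ Y N, PromiseBPL Y N →
      ∃ S : Set (List Bool), (∀ x ∈ Y, x ∈ S) ∧ (∀ x ∈ N, x ∉ S) ∧ LSelective S) ↔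
      ∀ Y N, PromiseBPL Y N → PromiseL Y N) ∧
    ((∀ Y N, PromiseBPL Y N →
      ∃ S : Set (List Bool), (∀ x ∈ Y, x ∈ S) ∧ (∀ x ∈ N, x ∉ S) ∧ LSelective S) →
      Same empty) :=
  ⟨selective_iff, fun h => same_of_promise
    (fun _ _ hYN => selective_core h (promiseBPL_of_promiseRL hYN)) empty⟩

end Pool.Agent.Results.MP_92893d_lc.SelectiveSets
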